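import Pool.Agent.helper81.DI.SpecC

set_option autoImplicit false

namespace Pool.Agent.DI

open Pool.Agent.helper58.DC

theorem C2 : C2_stmt := by
  classical
  intro Γ _ _
  have : Fintype Γ := Fintype.ofFinite Γ
  let A := integralClosure ℤ ℂ
  let S := MonoidAlgebra A Γ
  let j : Subring.center S → (Γ → ℂ) := fun a x => ((a.1.coeff x : A) : ℂ)
  refine ⟨Subring.center S, inferInstance, j, ?_, ?_, ?_, ?_, ?_⟩
  · intro a b h
    apply Subtype.ext
    apply MonoidAlgebra.coeff_injective
    apply Finsupp.ext
    intro x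
    exact Subtype.ext (congrFun h x)
  · intro z
    constructor
    · rintro ⟨h1, h2⟩
      let f : Γ →₀ A := Finsupp.equivFunOnFinite.symm (fun x => ⟨z x, h2 x⟩)
      let a : S := .ofCoeff f
      have ha : a ∈ Subring.center S := by
        rw [Subring.mem_center_iff]
        intro g
        apply MonoidAlgebra.coeff_injective
        apply Finsupp.ext
        intro x
        rw [MonoidAlgebra.coeff_mul_apply_left, MonoidAlgebra.coeff_mul_apply_right]
        refine Finsupp.sum_congr fun h _ => ?_
        have h3 : a.coeff (h⁻¹ * x) = a.coeff (x * h⁻¹) := by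
          apply Subtype.ext
          show z (h⁻¹ * x) = z (x * h⁻¹)
          rw [← h1 (x * h⁻¹) h⁻¹]
          congr 1
          group
        rw [h3, mul_comm]
      exact ⟨⟨a, ha⟩, rfl⟩
    · rintro ⟨a, rfl⟩
      refine ⟨fun x y => ?_, fun x => (a.1.coeff x).2⟩
      have h1 := (Subring.mem_center_iff.1 a.2) (MonoidAlgebra.single y (1 : A))
      have h2 := congrArg (fun t : S => t.coeff (y * x)) h1
      rw [MonoidAlgebra.coeff_single_mul_apply, MonoidAlgebra.coeff_mul_single_apply, one_mul,
        mul_one, inv_mul_cancel_left] at h2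
      show ((a.1.coeff (y * x * y⁻¹) : A) : ℂ) = ((a.1.coeff x : A) : ℂ)
      rw [h2]
  · intro a b
    funext g
    show (((a.1 * b.1 : S).coeff g : A) : ℂ) = cv (j a) (j b) g
    rw [MonoidAlgebra.coeff_mul_apply_left, cv, finsum_eq_sum_of_fintype,
      Finsupp.sum_fintype _ _ (fun i => zero_mul _)]
    rw [AddSubmonoidClass.coe_finsetSum]
    rfl
  · intro a b
    rfl
  · funext x
    show (((1 : S).coeff x : A) : ℂ) = _
    rw [MonoidAlgebra.one_def, MonoidAlgebra.coeff_single, Finsupp.single_apply]
    by_cases h : x = 1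
    · rw [if_pos h, if_pos h.symm]
      rfl
    · rw [if_neg h, if_neg (fun h' => h h'.symm)]
      rfl

end Pool.Agent.DI
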